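import Pool.Agent.MWHQ.Stmts

set_option autoImplicit false

namespace Pool.Agent.MWHQ.H4

open Pool.Agent.Helper14_MV Pool.Agent.Helper2_MV Pool.Agent.MVO Pool.Agent.MWL Pool.Agent.MWS
  Pool.Agent.MWH Pool.Agent.MWHQ

theorem ad_two {n : ℕ} (hn : 1 ≤ n) (a : ℕ → ℕ) (i : ℕ) : 2 ≤ ad n a i i := by
  unfold ad
  rw [if_pos rfl]
  omega

theorem vs_ad {n : ℕ} (hn : 1 ≤ n) {a b : ℕ → ℕ} {i : ℕ} (s : Stt) : Vs (ad n a i) b i s :=
  fun _ => Or.inl (ad_two hn a i)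

theorem j2t (h1 : MWHP.LrnnStmt) (h2 : MWHP.AbiStmt) (h3 : MWHP.AbjStmt) (h4 : Bb2Stmt)
    (h5 : Lt6Stmt) (h6 : Hh2Stmt) : J2tStmt := by
  intro n β θ hH hβθ hJ k a b i u v hV hL hb
  have hn : 1 ≤ n := hH.toBaseH.toBasN.pos
  have hLR := h1 n β θ hH.toBaseH.toBasN hβθ
  have hD : Has n (FC.ofFIC θ) (Bit.D 0) := hβθ _ _ (h4 n β hH).2
  -- absorption of light letters of degree two at a block where they occur
  have habs : ∀ (c : ℕ → ℕ) (u v : ℕ), LL2 k c u v → i ≤ k → c i ≠ 0 →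
      Ab n (FC.ofFIC θ) k c i := by
    intro c u v hc hi hci
    have h7 := h5 n (FC.ofFIC θ) hLR hJ hD k c u v hc
    by_cases hu : i = u
    · rw [hu]
      exact h7.1
    · by_cases hv : i = v
      · rw [hv]
        exact h7.2
      · exact absurd (hc.az i hi hu hv) hci
  have ha := habs a u v hL hV.ik hV.ai
  obtain ⟨hV1, hW1⟩ := h2 n β θ hH.toBaseH hβθ k a b i hV i hV.ik ha (Or.inl rfl)
  have h2a : 2 ≤ ad n a i i := ad_two hn a i
  intro s s' hs hs'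
  unfold Tr
  rcases hb with ⟨u', v', hL'⟩ | hb
  · have hb' := habs b u' v' hL' hV.ik hV.bi
    obtain ⟨hV2, hW2⟩ := h3 n β θ hH.toBaseH hβθ k (ad n a i) b i hV1 i hV.ik hb' (Or.inl rfl)
    have h2b : 2 ≤ ad n b i i := ad_two hn b i
    have h8 := h6 n β hH k (ad n a i) (ad n b i) i hV2 h2a h2b s s' (vs_ad hn s) (vs_ad hn s')
    have h9 : RR θ (asm k (W (ad n a i) (ad n b i) i s)) (asm k (W (ad n a i) (ad n b i) i s')) :=
      hβθ _ _ h8
    exact θ.trans (θ.trans (hW1 s hs) (hW2 s (vs_ad hn s))) (θ.trans h9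
      (RR.symm (θ.trans (hW1 s' hs') (hW2 s' (vs_ad hn s')))))
  · have h8 := h6 n β hH k (ad n a i) b i hV1 h2a hb s s' (vs_ad hn s) (vs_ad hn s')
    have h9 : RR θ (asm k (W (ad n a i) b i s)) (asm k (W (ad n a i) b i s')) := hβθ _ _ h8
    exact θ.trans (hW1 s hs) (θ.trans h9 (RR.symm (hW1 s' hs')))

end Pool.Agent.MWHQ.H4
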